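import Pool.Agent.Helper87.TC.Lib

/-! # MP_39dd1a_ag, vtc_mods: module HCUR2 -/

set_option autoImplicit false

namespace Pool.Agent.Helper87.TC

open MvPolynomial Pool.Agent.Helper48.VMRT Pool.Agent.Helper87.VM

theorem hcur2_pow {G : Type} [Group G] (g : G) (M k : ℕ) (hord : g ^ (2 ^ (M + 1)) = 1)
    (hk0 : 0 < k) (hk : k < 2 ^ (M + 1)) : ∃ j : ℕ, g ^ (k * j) = g ^ (2 ^ M) := by
  obtain ⟨a, b, hb, hab⟩ := Nat.exists_eq_two_pow_mul_odd hk0.ne'
  have ha : a ≤ M := by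
    by_contra hcon
    have h1 : M + 1 ≤ a := by omega
    have h2 : 2 ^ (M + 1) ≤ 2 ^ a := Nat.pow_le_pow_right (by norm_num) h1
    have h3 : 0 < b := hb.pos
    have h4 : 2 ^ a ≤ 2 ^ a * b := Nat.le_mul_of_pos_right _ h3
    omega
  obtain ⟨b', hb'⟩ := hb
  refine ⟨2 ^ (M - a), ?_⟩
  have h1 : k * 2 ^ (M - a) = 2 ^ (M + 1) * b' + 2 ^ M := by
    have h2 : 2 ^ a * 2 ^ (M - a) = 2 ^ M := by
      rw [← pow_add]
      congr 1
      omega
    have h3 : 2 ^ (M + 1) = 2 * 2 ^ M := by ring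
    rw [hab, h3, hb']
    calc 2 ^ a * (2 * b' + 1) * 2 ^ (M - a) = (2 ^ a * 2 ^ (M - a)) * (2 * b' + 1) := by ring
      _ = 2 * 2 ^ M * b' + 2 ^ M := by rw [h2]; ring
  rw [h1, pow_add, pow_mul, hord, one_pow, one_mul]

theorem hcur2_mod {G : Type} [Group G] (g : G) (r i : ℕ) (hord : g ^ r = 1) :
    g ^ i = g ^ (i % r) := by
  conv_lhs => rw [← Nat.div_add_mod i r]
  rw [pow_add, pow_mul, hord, one_pow, one_mul]

/-- A linear map which maps two different vectors of the form `p + z q` into the plane of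
`p, q` maps this plane into itself. -/
theorem hcur2_plane {V : Type} [AddCommGroup V] [Module ℂ V] (L : V →ₗ[ℂ] V) (p q : V)
    (z1 z2 : ℂ) (hz : z1 ≠ z2) (h1 : L (p + z1 • q) ∈ Submodule.span ℂ {p, q})
    (h2 : L (p + z2 • q) ∈ Submodule.span ℂ {p, q}) :
    ∀ x ∈ Submodule.span ℂ {p, q}, L x ∈ Submodule.span ℂ {p, q} := by
  have hd : z2 - z1 ≠ 0 := sub_ne_zero.2 hz.symm
  have hq : L q ∈ Submodule.span ℂ {p, q} := by
    have h3 : L q = (z2 - z1)⁻¹ • (L (p + z2 • q) - L (p + z1 • q)) := by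
      have h4 : L (p + z2 • q) - L (p + z1 • q) = (z2 - z1) • L q := by
        rw [← map_sub, ← map_smul]
        congr 1
        rw [sub_smul]; abel
      rw [h4, smul_smul, inv_mul_cancel₀ hd, one_smul]
    rw [h3]
    exact Submodule.smul_mem _ _ (Submodule.sub_mem _ h2 h1)
  have hp : L p ∈ Submodule.span ℂ {p, q} := by
    have h3 : L p = L (p + z1 • q) - z1 • L q := by
      rw [map_add, map_smul]; abel
    rw [h3]
    exact Submodule.sub_mem _ h1 (Submodule.smul_mem _ _ hq)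
  intro x hx
  obtain ⟨a, b, rfl⟩ := Submodule.mem_span_pair.1 hx
  rw [map_add, map_smul, map_smul]
  exact Submodule.add_mem _ (Submodule.smul_mem _ _ hp) (Submodule.smul_mem _ _ hq)

theorem hcur2_iter {V : Type} [AddCommGroup V] [Module ℂ V] (L : V →ₗ[ℂ] V)
    (U : Submodule ℂ V) (h : ∀ x ∈ U, L x ∈ U) (j : ℕ) : ∀ x ∈ U, (L ^ j) x ∈ U := by
  induction j with
  | zero => intro x hx; simpa using hx
  | succ j ih =>
    intro x hx
    rw [pow_succ, Module.End.mul_apply]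
    exact ih _ (h x hx)

/-- The involution does not preserve the plane. -/
theorem hcur2_inv (D : VD) (M : ℕ) (g : D.G) (hT : TD D M g) (hHTR : ST_HTR0)
    (p q : Option (Fin D.w) → ℂ) (hLP : LP D p q)
    (y : Option (Fin D.w) × D.ν → Polynomial ℂ) (η : D.ν → Polynomial ℂ)
    (hy : ∀ s t : ℂ, hevv D.a y s t = seg (s • p + t • q) (hevv (D.a - 1) η s t))
    (hη : ∀ s t : ℂ, (s * p none + t * q none) • hevv (D.a - 1) η s t =
        ev D.F (s • p + t • q))
    (hFX : ∀ s t : ℂ, (s, t) ≠ (0, 0) → hevv D.a y s t ∉ FX D (g ^ (2 ^ M)))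
    (hU : ∀ x ∈ Submodule.span ℂ {p, q}, oext D.ρ (g ^ (2 ^ M)) x ∈ Submodule.span ℂ {p, q}) :
    False := by
  have hneg : ∀ x : Option (Fin D.w) → ℂ, x + oext D.ρ (g ^ (2 ^ M)) x =
      (2 * x none) • ov 1 0 := by
    intro x
    funext o
    cases o with
    | none =>
      rw [Pi.add_apply, oext_none, Pi.smul_apply, ov_none, smul_eq_mul]
      ring
    | some i =>
      rw [Pi.add_apply, oext_some, hT.neg, Pi.smul_apply, ov_some]
      simp
  have h1 : ∃ x ∈ Submodule.span ℂ {p, q}, x none ≠ 0 := by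
    rcases hLP.ne with h | h
    · exact ⟨p, Submodule.subset_span (by simp), h⟩
    · exact ⟨q, Submodule.subset_span (by simp), h⟩
  obtain ⟨x, hx, hx0⟩ := h1
  have h2 : (ov 1 0 : Option (Fin D.w) → ℂ) ∈ Submodule.span ℂ {p, q} := by
    have h3 := Submodule.add_mem _ hx (hU x hx)
    rw [hneg] at h3
    have h4 : (2 * x none) ≠ 0 := mul_ne_zero two_ne_zero hx0
    have h5 := Submodule.smul_mem _ (2 * x none)⁻¹ h3
    rw [smul_smul, inv_mul_cancel₀ h4, one_smul] at h5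
    exact h5
  obtain ⟨s, t, hst⟩ := Submodule.mem_span_pair.1 h2
  have hne : (s, t) ≠ (0, 0) := by
    intro h0
    rw [Prod.mk.injEq] at h0
    rw [h0.1, h0.2, zero_smul, zero_smul, add_zero] at hst
    have h3 := congrFun hst none
    simp at h3
  apply hFX s t hne
  have h6 : s * p none + t * q none = 1 := by
    have h3 := congrFun hst none
    simpa using h3
  have h7 := hη s t
  rw [h6, one_smul, hst] at h7
  have h8 : hevv D.a y s t = D.gr (ov 1 0) := by
    rw [hy, h7, hst]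
    rfl
  rw [h8]
  left
  rw [← (hHTR D hT.good (g ^ (2 ^ M))).1, oext_ov, map_zero]

theorem st_HCUR2 (hMEM : ST_MEM2) (hHTR : ST_HTR0) : ST_HCUR2 := by
  intro D M g N E X DX ε hTR c hc
  obtain ⟨p, q, hLP, hcE, hcD⟩ := hc
  obtain ⟨y, η, hMy, hMη, hy, hyY, hη, hpt, hFX⟩ :=
    hMEM D M g N E X DX ε hTR p q hLP c hcE hcD
  have hT := hTR.td
  have hR := hTR.res
  have h0F : (0 : Option (Fin D.w) × D.ν → ℂ) ∈ FX D (g ^ (2 ^ M)) := by
    left
    rw [map_zero]
  have h0 : (0 : Fin (N + 1) → ℂ) ∈ DX := by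
    have h1 := hR.dcone 0 _ (hR.on 0 h0F)
    rwa [zero_smul] at h1
  refine ⟨?_, ?_, ?_⟩
  · intro s t hst h1
    exact hcD s t hst (by rw [h1]; exact h0)
  · intro s t
    rw [hpt]
    exact hR.img _ (hyY s t)
  · set B : ℕ → Set ℂ := fun k => {z | 0 < k ∧ oext D.ρ (g ^ k) (p + z • q) ∈
      Submodule.span ℂ {p, q}} with hB
    have hsub : ∀ k < 2 ^ (M + 1), (B k).Subsingleton := by
      intro k hk z1 hz1 z2 hz2
      by_contra hne
      have h1 := hcur2_plane (oext D.ρ (g ^ k)) p q z1 z2 hne hz1.2 hz2.2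
      obtain ⟨j, hj⟩ := hcur2_pow g M k hT.ord hz1.1 hk
      have h2 := hcur2_iter _ _ h1 j
      rw [← map_pow, ← pow_mul, hj] at h2
      exact hcur2_inv D M g hT hHTR p q hLP y η hy hη hFX h2
    have hfin : (⋃ k ∈ Set.Iio (2 ^ (M + 1)), B k).Finite := by
      refine Set.Finite.biUnion (Set.finite_Iio _) ?_
      intro k hk
      exact (hsub k hk).finite
    refine hfin.subset ?_
    rintro z ⟨s, t, hst, htz, a, ha⟩
    have h1z : ((1 : ℂ), z) ≠ (0, 0) := by simp
    have hsep := hR.sep (hevv D.a y 1 z) (hyY 1 z) (hFX 1 z h1z) (hevv D.a y s t) (hyY s t)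
      (hFX s t hst) a (by rw [← hpt, ← hpt]; exact ha)
    obtain ⟨i, c', hi⟩ := hsep
    rw [← map_pow] at hi
    have e1 : (D.ρY (g ^ i)) (hevv D.a y 1 z) =
        seg (oext D.ρ (g ^ i) ((1 : ℂ) • p + z • q)) (D.ρν (g ^ i) (hevv (D.a - 1) η 1 z)) := by
      rw [hy, VD.ρY, tens_seg]
    rw [e1, ← seg_smul_right, hy] at hi
    have hne0 : seg (s • p + t • q) (hevv (D.a - 1) η s t) ≠ 0 := by
      rw [← hy]
      exact hMy.ne s t hst
    obtain ⟨c'', hc'', hx, -⟩ := seg_eq_seg hi hne0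
    rw [one_smul] at hx
    rw [Set.mem_iUnion₂]
    refine ⟨i % 2 ^ (M + 1), Nat.mod_lt _ (by positivity), ?_, ?_⟩
    · by_contra hcon
      have hk0 : i % 2 ^ (M + 1) = 0 := by omega
      rw [hcur2_mod g _ i hT.ord, hk0, pow_zero, map_one, Module.End.one_apply] at hx
      have h2 := LinearIndependent.pair_iff.1 hLP.ind (1 - c'' * s) (z - c'' * t) (by
        have h3 : (1 - c'' * s) • p + (z - c'' * t) • q =
            (p + z • q) - c'' • (s • p + t • q) := by
          rw [sub_smul, sub_smul, one_smul, smul_add, smul_smul, smul_smul]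
          abel
        rw [h3, hx, sub_self])
      apply htz
      linear_combination t * h2.1 - s * h2.2
    · rw [← hcur2_mod g _ i hT.ord, hx]
      refine Submodule.smul_mem _ _ ?_
      exact Submodule.mem_span_pair.2 ⟨s, t, rfl⟩

end Pool.Agent.Helper87.TC
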