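import Pool.Agent.Helper87.TC.Lib

/-! # MP_39dd1a_ag, vtc_mods: module DIMM -/

set_option autoImplicit false

namespace Pool.Agent.Helper87.TC

open MvPolynomial Pool.Agent.Helper48.VMRT Pool.Agent.Helper87.VM Cardinal

/-- `a` is algebraically independent modulo the functions vanishing on `S`. -/
def DimmInd {κ τ : Type} (S : Set (κ → ℂ)) (a : τ → MvPolynomial κ ℂ) : Prop :=
  ∀ Q : MvPolynomial τ ℂ, (∀ x ∈ S, eval (ev a x) Q = 0) → Q = 0

theorem dimm_ind_iff {κ τ : Type} (S : Set (κ → ℂ)) (a : τ → MvPolynomial κ ℂ) :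
    DimmInd S a ↔ AlgebraicIndependent ℂ
      (fun k => Ideal.Quotient.mk (vanishingIdeal ℂ S) (a k)) := by
  rw [algebraicIndependent_iff]
  have key : ∀ Q : MvPolynomial τ ℂ,
      aeval (fun k => Ideal.Quotient.mk (vanishingIdeal ℂ S) (a k)) Q =
        Ideal.Quotient.mk (vanishingIdeal ℂ S) (aeval a Q) := by
    intro Q
    have h := MvPolynomial.map_aeval a
      (Ideal.Quotient.mkₐ ℂ (vanishingIdeal ℂ S)).toRingHom Q
    have h2 : (Ideal.Quotient.mkₐ ℂ (vanishingIdeal ℂ S)) (aeval a Q) =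
        aeval (fun k => (Ideal.Quotient.mkₐ ℂ (vanishingIdeal ℂ S)) (a k)) Q := by
      rw [← AlgHom.comp_apply]
      congr 1
      apply MvPolynomial.algHom_ext
      intro i
      simp
    exact h2.symm
  constructor
  · intro h Q hQ
    apply h Q
    intro x hx
    rw [key, Ideal.Quotient.eq_zero_iff_mem, mem_vI] at hQ
    rw [← eval_aeval]
    exact hQ x hx
  · intro h Q hQ
    apply h Q
    rw [key, Ideal.Quotient.eq_zero_iff_mem, mem_vI]
    intro x hx
    rw [eval_aeval]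
    exact hQ x hx

theorem dimm_transfer {w : ℕ} {τ : Type} {S T : Set (Fin w → ℂ)}
    (a : (Fin w → ℂ) ≃ₗ[ℂ] (Fin w → ℂ)) (h : a '' S = T) (b : τ → MvPolynomial (Fin w) ℂ)
    (hb : DimmInd T b) : ∃ c : τ → MvPolynomial (Fin w) ℂ, DimmInd S c := by
  refine ⟨fun k => aeval (fun i => linp ((LinearMap.proj i).comp
    (a : (Fin w → ℂ) →ₗ[ℂ] (Fin w → ℂ)) : (Fin w → ℂ) →ₗ[ℂ] ℂ)) (b k), ?_⟩
  intro Q hQ
  apply hb Q
  intro y hy
  rw [← h] at hy
  obtain ⟨x, hx, rfl⟩ := hy
  have h1 := hQ x hx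
  have h2 : ev (fun k => aeval (fun i => linp ((LinearMap.proj i).comp
      (a : (Fin w → ℂ) →ₗ[ℂ] (Fin w → ℂ)) : (Fin w → ℂ) →ₗ[ℂ] ℂ)) (b k)) x = ev b (a x) := by
    funext k
    change eval x (aeval _ (b k)) = eval (a x) (b k)
    rw [eval_aeval, ev_linp]
    rfl
  rw [h2] at h1
  exact h1

theorem dimm_prod {κ₁ κ₂ τ₁ τ₂ : Type} (S : Set (κ₁ → ℂ)) (T : Set (κ₂ → ℂ))
    (b : τ₁ → MvPolynomial κ₁ ℂ) (c : τ₂ → MvPolynomial κ₂ ℂ) (hb : DimmInd S b)
    (hc : DimmInd T c) :
    DimmInd {z : κ₁ ⊕ κ₂ → ℂ | (fun i => z (Sum.inl i)) ∈ S ∧ (fun j => z (Sum.inr j)) ∈ T}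
      (Sum.elim (fun k => rename Sum.inl (b k)) (fun k => rename Sum.inr (c k))) := by
  intro Q hQ
  have h1 : ∀ x ∈ S, ∀ y ∈ T, eval (Sum.elim (ev b x) (ev c y)) Q = 0 := by
    intro x hx y hy
    have h2 := hQ (Sum.elim x y) ⟨hx, hy⟩
    have h3 : ev (Sum.elim (fun k => rename Sum.inl (b k)) (fun k => rename Sum.inr (c k)))
        (Sum.elim x y) = Sum.elim (ev b x) (ev c y) := by
      funext k
      rcases k with k | k
      · simp [ev, eval_rename, Function.comp_def]
      · simp [ev, eval_rename, Function.comp_def]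
    rw [h3] at h2
    exact h2
  have h4 : ∀ y ∈ T, ∀ s : τ₁ → ℂ, eval (Sum.elim s (ev c y)) Q = 0 := by
    intro y hy
    have h5 := hb (aeval (Sum.elim (fun k => X k) (fun k => C (ev c y k))) Q) (by
      intro x hx
      rw [eval_aeval]
      have h6 : ev (Sum.elim (fun k => X k) (fun k => C (ev c y k))) (ev b x) =
          Sum.elim (ev b x) (ev c y) := by
        funext k
        rcases k with k | k <;> simp [ev]
      rw [h6]
      exact h1 x hx y hy)
    intro s
    have h7 := congrArg (eval s) h5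
    rw [eval_aeval, map_zero] at h7
    have h8 : ev (Sum.elim (fun k => X k) (fun k => C (ev c y k))) s =
        Sum.elim s (ev c y) := by
      funext k
      rcases k with k | k <;> simp [ev]
    rw [h8] at h7
    exact h7
  apply MvPolynomial.funext
  intro u
  rw [map_zero]
  have h5 := hc (aeval (Sum.elim (fun k => C (u (Sum.inl k))) (fun k => X k)) Q) (by
    intro y hy
    rw [eval_aeval]
    have h6 : ev (Sum.elim (fun k => C (u (Sum.inl k))) (fun k => X k)) (ev c y) =
        Sum.elim (fun k => u (Sum.inl k)) (ev c y) := by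
      funext k
      rcases k with k | k <;> simp [ev]
    rw [h6]
    exact h4 y hy _)
  have h7 := congrArg (eval (fun k => u (Sum.inr k))) h5
  rw [eval_aeval, map_zero] at h7
  have h8 : ev (Sum.elim (fun k => C (u (Sum.inl k))) (fun k => X k))
      (fun k => u (Sum.inr k)) = u := by
    funext k
    rcases k with k | k <;> simp [ev]
  rw [h8] at h7
  exact h7

theorem dimm_alg {κ : Type} {w : ℕ} (S : Set (κ → ℂ)) (hS : (vanishingIdeal ℂ S).IsPrime)
    (f : Fin w → MvPolynomial κ ℂ)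
    (hf : ((Ideal.Quotient.mk (vanishingIdeal ℂ S)).comp (aeval (R := ℂ) f).toRingHom).Finite) :
    Algebra.trdeg ℂ (MvPolynomial κ ℂ ⧸ vanishingIdeal ℂ S) ≤ w := by
  have := hS
  have : IsDomain (MvPolynomial κ ℂ ⧸ vanishingIdeal ℂ S) := Ideal.Quotient.isDomain _
  set A := MvPolynomial κ ℂ ⧸ vanishingIdeal ℂ S with hA
  set s : Set A := Set.range (fun k => Ideal.Quotient.mk (vanishingIdeal ℂ S) (f k)) with hs
  set g := (Ideal.Quotient.mk (vanishingIdeal ℂ S)).comp (aeval (R := ℂ) f).toRingHom with hg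
  have hmem : ∀ q, g q ∈ Algebra.adjoin ℂ s := by
    intro q
    rw [hs, Algebra.adjoin_range_eq_range_aeval]
    refine ⟨q, ?_⟩
    have h2 : (Ideal.Quotient.mkₐ ℂ (vanishingIdeal ℂ S)) (aeval f q) =
        aeval (fun k => (Ideal.Quotient.mkₐ ℂ (vanishingIdeal ℂ S)) (f k)) q := by
      rw [← AlgHom.comp_apply]
      congr 1
      apply MvPolynomial.algHom_ext
      intro i
      simp
    exact h2.symm
  have : Algebra.IsAlgebraic (Algebra.adjoin ℂ s) A := by
    constructor
    intro x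
    obtain ⟨p, hp, hpx⟩ := hf.to_isIntegral x
    refine ⟨p.map (g.codRestrict (Algebra.adjoin ℂ s) hmem), (hp.map _).ne_zero, ?_⟩
    rw [Polynomial.aeval_def, Polynomial.eval₂_map]
    exact hpx
  have h1 := Algebra.IsAlgebraic.trdeg_le_cardinalMk ℂ s
  refine h1.trans ?_
  rw [hs]
  refine Cardinal.mk_range_le.trans ?_
  simp

theorem dimm_exists {w : ℕ} (S : Set (Fin w → ℂ)) (hS : (vanishingIdeal ℂ S).IsPrime) :
    ∃ m : ℕ, (∃ b : Fin m → MvPolynomial (Fin w) ℂ, DimmInd S b) ∧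
      ∀ c : Fin (m + 1) → MvPolynomial (Fin w) ℂ, ¬ DimmInd S c := by
  have := hS
  have : IsDomain (MvPolynomial (Fin w) ℂ ⧸ vanishingIdeal ℂ S) := Ideal.Quotient.isDomain _
  set A := MvPolynomial (Fin w) ℂ ⧸ vanishingIdeal ℂ S with hA
  have hfin : Algebra.trdeg ℂ A < ℵ₀ := trdeg_lt_aleph0_of_finiteType
  obtain ⟨m, hm⟩ := Cardinal.lt_aleph0.1 hfin
  refine ⟨m, ?_, ?_⟩
  · obtain ⟨ι, x, hx⟩ := exists_isTranscendenceBasis' ℂ A
    have h1 : #ι = (m : Cardinal) := by rw [hx.cardinalMk_eq_trdeg, hm]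
    have h2 : #ι = #(Fin m) := by rw [h1]; simp
    obtain ⟨e⟩ := Cardinal.eq.1 h2
    have h3 : ∀ k : Fin m, ∃ p : MvPolynomial (Fin w) ℂ,
        Ideal.Quotient.mk (vanishingIdeal ℂ S) p = x (e.symm k) := fun k =>
      Ideal.Quotient.mk_surjective _
    choose b hb using h3
    refine ⟨b, ?_⟩
    rw [dimm_ind_iff]
    have h4 : (fun k => Ideal.Quotient.mk (vanishingIdeal ℂ S) (b k)) = x ∘ e.symm := by
      funext k
      exact hb k
    rw [h4]
    exact hx.1.comp _ e.symm.injective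
  · intro c hc
    rw [dimm_ind_iff] at hc
    have h1 := hc.cardinalMk_le_trdeg
    rw [hm] at h1
    simp only [Cardinal.mk_fin] at h1
    have h2 : m + 1 ≤ m := by exact_mod_cast h1
    omega

theorem st_DIMM (hPROD : ST_PROD) (hFIN : ST_FIN) : ST_DIMM := by
  intro w ι _ Zi hcl hcone hprime hiso hpair
  obtain ⟨i0, j0, hd⟩ := hpair
  obtain ⟨m, ⟨b, hb⟩, hmax⟩ := dimm_exists (Zi i0) (hprime i0)
  refine ⟨m, ?_, ?_⟩
  · obtain ⟨a, ha⟩ := hiso j0 i0
    obtain ⟨c, hc⟩ := dimm_transfer a ha b hb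
    set S : Set (Fin w ⊕ Fin w → ℂ) :=
      {z | (fun i => z (Sum.inl i)) ∈ Zi i0 ∧ (fun j => z (Sum.inr j)) ∈ Zi j0} with hS
    have hSp : (vanishingIdeal ℂ S).IsPrime :=
      hPROD (Fin w) (Fin w) (Zi i0) (Zi j0) (hprime i0) (hprime j0)
    have hScl : ZClosed S := by
      have h1 := zclosed_preimage (hcl i0) (fun i => (X (Sum.inl i) : MvPolynomial (Fin w ⊕ Fin w) ℂ))
      have h2 := zclosed_preimage (hcl j0) (fun i => (X (Sum.inr i) : MvPolynomial (Fin w ⊕ Fin w) ℂ))
      have h3 := zclosed_inter h1 h2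
      have h4 : {x : Fin w ⊕ Fin w → ℂ | ev (fun i => X (Sum.inl i)) x ∈ Zi i0} ∩
          {x : Fin w ⊕ Fin w → ℂ | ev (fun i => X (Sum.inr i)) x ∈ Zi j0} = S := by
        ext z
        have e1 : ev (fun i => (X (Sum.inl i) : MvPolynomial (Fin w ⊕ Fin w) ℂ)) z =
            fun i => z (Sum.inl i) := by
          funext k
          simp [ev]
        have e2 : ev (fun i => (X (Sum.inr i) : MvPolynomial (Fin w ⊕ Fin w) ℂ)) z =
            fun i => z (Sum.inr i) := by
          funext k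
          simp [ev]
        rw [hS, Set.mem_inter_iff, Set.mem_setOf_eq, Set.mem_setOf_eq, Set.mem_setOf_eq, e1, e2]
      rw [h4] at h3
      exact h3
    have hSc : ∀ a : ℂ, ∀ x ∈ S, a • x ∈ S := fun a x hx =>
      ⟨hcone i0 a _ hx.1, hcone j0 a _ hx.2⟩
    have hf := hFIN (Fin w ⊕ Fin w) (Fin w) S 1
      (fun k => X (Sum.inl k) - X (Sum.inr k)) le_rfl hScl hSc (by
        intro k a x
        simp [mul_sub]) (by
        intro x hx h0
        have h1 : (fun i => x (Sum.inl i)) = fun j => x (Sum.inr j) := by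
          funext k
          have h2 := congrFun h0 k
          simp only [ev, map_sub, eval_X, Pi.zero_apply] at h2
          exact sub_eq_zero.1 h2
        have h3 := hd _ hx.1 (by rw [h1]; exact hx.2)
        have h4 : (fun j => x (Sum.inr j)) = 0 := by rw [← h1]; exact h3
        funext k
        rcases k with k | k
        · exact congrFun h3 k
        · exact congrFun h4 k)
    have h5 := dimm_alg S hSp _ hf
    have h6 := dimm_prod (Zi i0) (Zi j0) b c hb hc
    rw [dimm_ind_iff] at h6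
    have h7 := h6.cardinalMk_le_trdeg
    have h8 := h7.trans h5
    simp only [Cardinal.mk_sum, Cardinal.mk_fin, Cardinal.lift_natCast] at h8
    have h9 : ((m + m : ℕ) : Cardinal) ≤ (w : Cardinal) := by
      push_cast
      exact h8
    have h10 : m + m ≤ w := by exact_mod_cast h9
    omega
  · intro e _
    classical
    have := Fintype.ofFinite ι
    have h1 : ∀ i, ∃ P : MvPolynomial (Fin (m + 1)) ℂ, P ≠ 0 ∧
        ∀ z ∈ Zi i, eval (fun k => z (e k)) P = 0 := by
      intro i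
      by_contra hcon
      push Not at hcon
      have h2 : DimmInd (Zi i) (fun k => (X (e k) : MvPolynomial (Fin w) ℂ)) := by
        intro Q hQ
        by_contra hQ0
        obtain ⟨z, hz, hz0⟩ := hcon Q hQ0
        apply hz0
        have h3 := hQ z hz
        have h4 : ev (fun k => (X (e k) : MvPolynomial (Fin w) ℂ)) z = fun k => z (e k) := by
          funext k
          simp [ev]
        rw [h4] at h3
        exact h3
      obtain ⟨a, ha⟩ := hiso i0 i
      obtain ⟨c, hc⟩ := dimm_transfer a ha _ h2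
      exact hmax c hc
    choose P hP hP2 using h1
    refine ⟨∏ i, P i, Finset.prod_ne_zero_iff.2 fun i _ => hP i, ?_⟩
    intro z hz
    obtain ⟨i, hi⟩ := Set.mem_iUnion.1 hz
    rw [map_prod]
    exact Finset.prod_eq_zero (Finset.mem_univ i) (hP2 i z hi)

end Pool.Agent.Helper87.TC
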